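import Mathlib
import Pool.Agent.Helper97.RK.Stmts
import Pool.Agent.Helper17.RS.Sheet

/-! # Statements for `N_8(H) ≥ c H ^ (1/5)` (MP_798d7d_nt)

FAMILY (Shioda's `E8` family): plane cubics through the nine points `(s_i : 1 : s_i³)`, `∑ s_i = 0`, of
the cuspidal cubic; here `s_9 = 0`, `s_7 = 1`, `u = (s_1, .., s_6)` free (weight 1) and the parameter
`t` of the pencil (weight 6).  Projection from the ninth point gives the quartic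
`y² = q4 m⁴ + q3 m³ + q2 m² + q1 m + q0`, which has the eight points `m = s_i²` and the point
`m = - e_8 / t`; `A = - I / 48`, `B = - J / 1728` have the weights 20 and 30
(`A = - e_2 t³ + ..`, `B = - t⁵ + ..`).  `m¹²` members with `s_i ∼ m`, `t ∼ m⁶`, height `∼ m⁶⁰`.
COLLISIONS: for `u ≠ u'` at most 200 pairs `(t, t')` give the same `(A, B)` (CURVE, INJ), so there are at
most `C m¹²` pairs of members with the same `(A, B)`.
SIEVE (helper89): `q⁶ ∣ B` for at most 5 classes of `t` modulo `q²`.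
The theorem was found independently by helper89 with the same family.
-/

set_option autoImplicit false

namespace Pool.Helper17.R8

open Pool.Agent.Helper97.RK (cur)
open Pool.Helper17.RS (RS NR ST_GEN)
open Polynomial

section
variable {R : Type*} [CommRing R]

/-- elementary symmetric functions of eight elements -/
def ek (s : Fin 8 → R) (k : ℕ) : R :=
  ∑ T ∈ Finset.powersetCard k (Finset.univ : Finset (Fin 8)), ∏ i ∈ T, s i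

/-- the coefficients of the quartic -/
def q4 (e : ℕ → R) (t : R) : R := e 3 ^ 2 - 4 * t
def q3 (e : ℕ → R) (t : R) : R := 2 * e 3 * e 5 - 4 * (t * e 2 + e 8)
def q2 (e : ℕ → R) (t : R) : R := e 5 ^ 2 + 2 * e 3 * e 7 - 4 * (t * e 4 + e 8 * e 2)
def q1 (e : ℕ → R) (t : R) : R := 2 * e 5 * e 7 - 4 * (t * (e 6 - t) + e 8 * e 4)
def q0 (e : ℕ → R) (t : R) : R := e 7 ^ 2 - 4 * e 8 * (e 6 - t)

/-- the invariants of the quartic: `I` of degree 3 in `t` (leading coefficient `48 e 2`), `J` of degree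
5 in `t` (leading coefficient 1728) -/
def fI (e : ℕ → R) (t : R) : R := 12 * q4 e t * q0 e t - 3 * q3 e t * q1 e t + q2 e t ^ 2
def fJ (e : ℕ → R) (t : R) : R :=
  72 * q4 e t * q2 e t * q0 e t + 9 * q3 e t * q2 e t * q1 e t - 27 * q4 e t * q1 e t ^ 2 -
    27 * q0 e t * q3 e t ^ 2 - 2 * q2 e t ^ 3

/-- the parameters `s_1, .., s_8` -/
def ss (u : Fin 6 → R) : Fin 8 → R :=
  ![u 0, u 1, u 2, u 3, u 4, u 5, 1, -(u 0 + u 1 + u 2 + u 3 + u 4 + u 5 + 1)]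

/-- the ordinate at `m = s²` -/
def yv (e : ℕ → R) (t s : R) : R :=
  2 * t * s - 2 * s ^ 7 - 2 * e 2 * s ^ 5 + e 3 * s ^ 4 - 2 * e 4 * s ^ 3 + e 5 * s ^ 2 -
    2 * e 6 * s + e 7

/-- the ordinate at `m = - e 8 / t` (times `t²`) -/
def y9 (e : ℕ → R) (t : R) : R := e 5 * e 8 * t - e 3 * e 8 ^ 2 - e 7 * t ^ 2

/-- three times the numerator of the abscissa belonging to two points of the quartic -/
def xX (e : ℕ → R) (t ξ y η ζ w : R) : R :=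
  6 * q4 e t * ξ ^ 2 * η ^ 2 + 3 * q3 e t * ξ * η * (ξ * ζ + η) +
    q2 e t * (ξ ^ 2 * ζ ^ 2 + 4 * ξ * η * ζ + η ^ 2) + 3 * q1 e t * ζ * (ξ * ζ + η) +
    6 * q0 e t * ζ ^ 2 + 6 * y * w

/-- `I` and `J` as polynomials in `t` -/
noncomputable def pI (e : ℕ → R) : R[X] := fI (fun k => C (e k)) X
noncomputable def pJ (e : ℕ → R) : R[X] := fJ (fun k => C (e k)) X

end

/-- the parameters `(u, t)` -/
abbrev Par : Type := (Fin 6 → ℤ) × ℤ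

def QQ : ℕ := 1000
def MM : ℤ := 1728 * (Nat.factorial QQ : ℤ)
/-- the base: `s = (-5, 13, -17, 15, 7, -11, 1, -3)`, `t = 3`;
`e 2, .., e 8 = -444, -160, 53454, -16320, -1588076, 2310240, 3828825` -/
def ub : Fin 6 → ℤ := ![-5, 13, -17, 15, 7, -11]
def Cong (w : Par) : Prop := (∀ i, MM ∣ w.1 i - ub i) ∧ MM ∣ w.2 - 3

def cA (w : Par) : ℤ := (-(fI (ek (ss w.1)) w.2)) / 48
def cB (w : Par) : ℤ := (-(fJ (ek (ss w.1)) w.2)) / 1728

/-- the members of size `m` -/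
def ww (T : (Fin 6 → ℕ) × ℕ) : Par := (fun i => ub i + MM * (T.1 i : ℤ), 3 + MM * (T.2 : ℤ))
def Box (m : ℕ) : Finset ((Fin 6 → ℕ) × ℕ) :=
  (Fintype.piFinset fun _ => Finset.range m) ×ˢ Finset.range (m ^ 6)

/-- the eight points: `px / pv²` -/
def px (w : Par) (j : Fin 8) : ℤ :=
  if j = 7 then
    3 * xX (ek (ss w.1)) w.2 (ss w.1 0 ^ 2) (yv (ek (ss w.1)) w.2 (ss w.1 0)) (-(ek (ss w.1) 8)) w.2
      (y9 (ek (ss w.1)) w.2)
  else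
    3 * xX (ek (ss w.1)) w.2 (ss w.1 j ^ 2) (yv (ek (ss w.1)) w.2 (ss w.1 j)) (ss w.1 7 ^ 2) 1
      (yv (ek (ss w.1)) w.2 (ss w.1 7))
def pv (w : Par) (j : Fin 8) : ℤ :=
  if j = 7 then 6 * (ss w.1 0 ^ 2 * w.2 + ek (ss w.1) 8) else 6 * (ss w.1 j ^ 2 - ss w.1 7 ^ 2)

/-! ## General rows -/

/-- VIE (Vieta). -/
def ST_VIE : Prop := ∀ (R : Type) [CommRing R] (s : Fin 8 → R) (x : R),
  ∏ i, (x - s i) = x ^ 8 - ek s 1 * x ^ 7 + ek s 2 * x ^ 6 - ek s 3 * x ^ 5 + ek s 4 * x ^ 4 -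
    ek s 5 * x ^ 3 + ek s 6 * x ^ 2 - ek s 7 * x + ek s 8

/-- RANKQ: the rank certificate for points with denominators.  As `Helper16/RK/RANK.lean` (from
ST_HOM, ST_LIN; ST_HOM is stated for all rational points) with the following instead of ST_PAD:
`∏ ((X i / (v i)²) - θ) · (∏ v i)² = ∏ (X i - θ (v i)²)`, and if this `q`-adic integer is a square in `ℚ_q`
then it is the square of an integer, so a square modulo `q` (proof as ST_PAD, `Helper16/RK/PAD.lean`). -/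
def ST_RANKQ : Prop := ∀ (n : ℕ) (A B : ℤ) (X v : Fin n → ℤ), (∀ i, v i ≠ 0) →
  (∀ i, ∃ y : ℚ, y ^ 2 = ((X i : ℚ) / (v i : ℚ) ^ 2) ^ 3 + (A : ℚ) * ((X i : ℚ) / (v i : ℚ) ^ 2) +
    (B : ℚ)) → 4 * A ^ 3 + 27 * B ^ 2 ≠ 0 →
  ∀ p : ℕ, (∀ t : ZMod p, t ^ 3 + (A : ZMod p) * t + (B : ZMod p) ≠ 0) →
  (∀ S : Finset (Fin n), S.Nonempty → ∃ (q : ℕ) (e : ℤ), q.Prime ∧
    ((e ^ 3 + A * e + B : ℤ) : ZMod q) = 0 ∧ ((3 * e ^ 2 + A : ℤ) : ZMod q) ≠ 0 ∧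
    ¬ IsSquare (∏ i ∈ S, ((X i - e * v i ^ 2 : ℤ) : ZMod q))) →
  (n : Cardinal) ≤ Module.rank ℤ ((cur A B).toAffine).Point

/-- PT: the point belonging to two points `(ξ, y)`, `(η / ζ, w / ζ²)` of a quartic.  With `a = q4` etc.,
`c = q2 / 3`, `x₀ = xX / (3 (ξ ζ - η)²)` (four times the abscissa) the ordinate is
`Y₀ = (y (2 a η² + q3 η ζ + (c - x₀) ζ²) + w (2 a ξ² + q3 ξ + c - x₀)) / (ζ (ξ ζ - η))`,
`Y₀² = x₀³ + 16 A x₀ + 64 B`, `Y = Y₀ / 8` (checked numerically). -/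
def ST_PT : Prop := ∀ (e : ℕ → ℚ) (t A B ξ y η ζ w : ℚ), 48 * A = -(fI e t) →
  1728 * B = -(fJ e t) →
  y ^ 2 = q4 e t * ξ ^ 4 + q3 e t * ξ ^ 3 + q2 e t * ξ ^ 2 + q1 e t * ξ + q0 e t →
  w ^ 2 = q4 e t * η ^ 4 + q3 e t * η ^ 3 * ζ + q2 e t * η ^ 2 * ζ ^ 2 + q1 e t * η * ζ ^ 3 +
    q0 e t * ζ ^ 4 → ζ ≠ 0 → ξ * ζ - η ≠ 0 →
  ∃ Y : ℚ, Y ^ 2 = (xX e t ξ y η ζ w / (12 * (ξ * ζ - η) ^ 2)) ^ 3 +
    A * (xX e t ξ y η ζ w / (12 * (ξ * ζ - η) ^ 2)) + B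

/-! ## The family -/

/-- REL: `fI`, `fJ` at `w` are congruent to their values at the base modulo `MM`. -/
def ST_REL : Prop := ∀ w : Par, Cong w →
  48 * cA w = -(fI (ek (ss w.1)) w.2) ∧ 1728 * cB w = -(fJ (ek (ss w.1)) w.2) ∧
  ((QQ.factorial : ℕ) : ℤ) ∣ cA w - (-459878073574319139) ∧
  ((QQ.factorial : ℕ) : ℤ) ∣ cB w - 162579259487614027045167326

/-- PTS (from VIE, PT, REL).  With `e = ek (ss u)`, `e 1 = 0`, `p(s) = s⁸ + e2 s⁶ - .. + e8 = 0`: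
`yv(s)² - g(s²) = 4 p(s) (s⁶ + e2 s⁴ + e4 s² + e6 - t)` and `g(- e8, t) = (y9)²` (identities).
`pv ≠ 0` modulo 11 at the base (`16, 160, 280, 216, 40, 112, -8; 3828900`, times 6), `t ≠ 0`. -/
def ST_PTS : Prop := ∀ w : Par, Cong w → ∀ j : Fin 8, pv w j ≠ 0 ∧
  ∃ y : ℚ, y ^ 2 = ((px w j : ℚ) / (pv w j : ℚ) ^ 2) ^ 3 +
    (cA w : ℚ) * ((px w j : ℚ) / (pv w j : ℚ) ^ 2) + (cB w : ℚ)

/-- CERT (from REL, PTS, RANKQ).  `gcd(A, B) = 1` at the base; no root modulo 5; the characters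
`(q, x)`: signs of `px j - x (pv j)²`, `j = 0, .., 7`:
`(11, 4): (-,+,+,-,+,+,-,+)`; `(13, 9): (+,+,-,-,+,-,+,-)`; `(17, 11): (-,-,-,+,-,-,+,-)`;
`(19, 4): (-,+,+,+,-,+,-,+)`; `(19, 6): (-,-,-,-,-,-,-,-)`; `(23, 18): (-,-,-,-,+,-,+,+)`;
`(29, 0): (+,-,-,-,-,-,+,+)`; `(29, 9): (+,+,-,+,-,+,-,-)` (nonsingular, independent over `𝔽₂`).
Compare `Helper46/RS/CERTS.lean`. -/
def ST_CERT : Prop := ∀ w : Par, Cong w →
  4 * cA w ^ 3 + 27 * cB w ^ 2 ≠ 0 ∧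
  (∀ q : ℕ, q.Prime → q ≤ QQ → ¬ ((q : ℤ) ∣ cA w ∧ (q : ℤ) ∣ cB w)) ∧
  (8 : Cardinal) ≤ Module.rank ℤ ((cur (cA w) (cB w)).toAffine).Point

/-- BND (from REL): `|s_i| ≤ C m`, `|e k| ≤ C m^k`, `|t| ≤ C m⁶`, `q4, .., q0` of weights
`6, 8, 10, 12, 14`, `I`, `J` of weights 20, 30. -/
def ST_BND : Prop := ∃ C : ℤ, 1 ≤ C ∧ ∀ m : ℕ, 1 ≤ m → ∀ T ∈ Box m,
  |cA (ww T)| ≤ C * (m : ℤ) ^ 20 ∧ |cB (ww T)| ≤ C * (m : ℤ) ^ 30

/-! ## Sieve -/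

/-- DDIV (helper89): divided differences.  Six integers, pairwise incongruent modulo `q²`, with
`q⁶ ∣ P(t_i)` give `q ∣` leading coefficient: `leading coefficient = ∑ P(t_i) / ∏_{j ≠ i} (t_i - t_j)`,
the valuation of each denominator is at most 5. -/
def ST_DDIV : Prop := ∀ (P : ℤ[X]) (q : ℕ), q.Prime → P.natDegree = 5 →
  ¬ (q : ℤ) ∣ P.leadingCoeff → ∀ t : Fin 6 → ℤ, (∀ i, (q : ℤ) ^ 6 ∣ P.eval (t i)) →
  ∃ i j, i ≠ j ∧ (q : ℤ) ^ 2 ∣ t i - t j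

open Classical in
/-- SIEVE (from REL, BND, DDIV).  For each `T.1` and each prime `q > QQ` the values of `T.2` with
`q⁶ ∣ cB` lie in at most 5 classes modulo `q²` (`P = pJ`, leading coefficient 1728; `MM` is prime to
`q`), so at most `5 (m⁶ / q² + 1)` values; `q ≤ C m⁵` because `0 < |cB| ≤ C m³⁰` (`cB ≠ 0` by the
residue modulo 5); the sum is at most `5 m⁶ / QQ + 5 C m⁵`. -/
def ST_SIEVE : Prop := ∃ m0 : ℕ, ∀ m : ℕ, m0 ≤ m →
  2 * ((Box m).filter (fun T => ∃ q : ℕ, q.Prime ∧ QQ < q ∧ (q : ℤ) ^ 6 ∣ cB (ww T))).card ≤ m ^ 12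

/-! ## Collisions -/

/-- CURVE.  By a dimension count (`5 + 6 > 10`) there are `d, n` not all zero with `X D' = N'`,
`D' = d₀ + d₁ f' + d₂ g' + d₃ f'² + d₄ f' g'`, `N' = n₀ + n₁ f' + n₂ g' + n₃ f'² + n₄ f' g' + n₅ f'³`
(the degrees `0, 3, 5, 6, 8, 9` are distinct, so `d ≠ 0`).  On `S`: `t' D(t) = N(t)` with the same
combinations `D ≠ 0`, `N` of `f`, `g`.  More than 27 values of `t` occur (`t'` has at most 3 values for
each `t`), so `D³ f'(N / D) = D³ f` identically, hence `D ∣ N` (divide by the gcd), `N = ρ D`, `f'(ρ) = f`,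
`ρ` is linear; `g'(ρ) = g` (values), the leading coefficients give `ρ = X + β`; `D(t) ≠ 0` for some
point of `S`. -/
def ST_CURVE : Prop := ∀ f f' g g' : ℚ[X], f.natDegree = 3 → f'.natDegree = 3 →
  g.natDegree = 5 → g'.natDegree = 5 → g.leadingCoeff = g'.leadingCoeff →
  ∀ S : Finset (ℚ × ℚ), (∀ p ∈ S, f.eval p.1 = f'.eval p.2 ∧ g.eval p.1 = g'.eval p.2) →
  200 ≤ S.card → ∃ β : ℚ, f'.comp (X + C β) = f ∧ g'.comp (X + C β) = g ∧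
    ∃ p ∈ S, p.2 = p.1 + β

/-- LINZ: linear approximation (induction on `P`). -/
def ST_LINZ : Prop := ∀ (P : MvPolynomial (Fin 8) ℤ) (p : ℤ) (b : Fin 8 → ℤ),
  ∃ L : Fin 8 → ℤ, ∀ (x y : Fin 8 → ℤ) (h : ℤ), p ∣ h → (∀ i, p ∣ y i - b i) →
    (∀ i, h ∣ x i - y i) →
    p * h ∣ MvPolynomial.eval x P - MvPolynomial.eval y P - ∑ i, L i * (x i - y i)

/-- INJ (from LINZ, VIE).  `p = 29`.  Unknowns `Δ = (e'2 - e2, .., e'8 - e8, β)`, eight equations: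
`fI` and `fJ` at `τ = 0, 1, 2, 3`.  LINZ for `fI`, `fJ` as polynomials in `(e2, .., e8, t)`, `b = (base, τ)`:
the matrix of the `L` modulo 29 (found by LINZ itself with `x = b + 29 · unit vector`, `y = b`, `h = 29`):
`fI`: `(16,22,18,14,18,11,0,18), (26,20,28,27,5,4,13,4), (10,1,22,6,15,26,28,8),
(24,23,0,9,19,19,16,1)`; `fJ`: `(19,22,25,22,11,11,19,14), (0,15,6,15,24,12,16,5),
(17,4,10,7,24,13,11,28), (7,2,10,4,14,28,24,15)` is invertible; so `29^k ∣ Δ` for all `k`.  Then `e' = e`,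
the monic polynomials with roots `s`, `s'` are equal, and the roots are distinct modulo 29. -/
def ST_INJ : Prop := ∀ w w' : Par, Cong w → Cong w' → ∀ β : ℤ, (29 : ℤ) ∣ β →
  (∀ τ : ℤ, fI (ek (ss w'.1)) (τ + β) = fI (ek (ss w.1)) τ ∧
    fJ (ek (ss w'.1)) (τ + β) = fJ (ek (ss w.1)) τ) → w.1 = w'.1

open Classical in
/-- PAIR (from REL, CURVE, INJ): for `u ≠ u'` less than 200 pairs `(t, t')`; for `u = u'` at most 5
values of `t'` for each `t`.  (`e 2 ≡ - 444` is not zero; `β = t' - t` is divisible by 29.) -/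
def ST_PAIR : Prop := ∀ m : ℕ, 1 ≤ m →
  ((Box m ×ˢ Box m).filter (fun p => cA (ww p.1) = cA (ww p.2) ∧
    cB (ww p.1) = cB (ww p.2))).card ≤ 205 * m ^ 12

/-! ## The theorem -/

/-- FIN (from CERT, BND, SIEVE, PAIR, ST_GEN).  `m = ⌊N^(1/5)⌋`, `N' = m⁵`: the good members (half
of `Box m`; reduced: a prime `q` with `q⁴ ∣ A`, `q⁶ ∣ B` is `> QQ` by CERT) have at least `(m¹² / 2)² / (205 m¹²)` different `(A, B)`, all in `RS 8 C N`; ST_GEN with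
`e = 12 / 5`.  Compare `Helper17/R6/FIN.lean`, `Helper25/RS/CNT.lean`. -/
def ST_FIN : Prop := ∃ c : ℝ, 0 < c ∧ ∃ H₀ : ℝ, ∀ H : ℝ, H₀ ≤ H →
  c * H ^ ((1 : ℝ) / 5) ≤ (NR 8 H : ℝ)

end Pool.Helper17.R8
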