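import Pool.Agent.Helper17.R8.FIN
import Pool.Agent.Helper58.RS.GEN
import Pool.Agent.Helper44.R8.VIE
import Pool.Agent.Helper44.R8.RANKQ
import Pool.Agent.Helper44.R8.DDIV
import Pool.Agent.Helper95.R8.PT
import Pool.Agent.Helper46.R8.REL
import Pool.Agent.Helper46.R8.CERT
import Pool.Agent.Helper34.R8.PTS
import Pool.Agent.Helper84.R8.BND
import Pool.Agent.Helper89.R8.SIEVE
import Pool.Agent.Helper53.R8.Curve
import Pool.Agent.Helper25.R8.LINZ
import Pool.Agent.Helper25.R8.INJ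
import Pool.Agent.Helper29.R8.PAIR

set_option autoImplicit false

namespace Pool.Helper17.R8

/-- Rank eight: `N_8(H) ≥ c H ^ (1/5)`. -/
theorem rank_eight : ST_FIN :=
  st_FIN (st_CERT st_REL (st_PTS st_VIE st_PT st_REL) st_RANKQ) (st_BND st_REL)
    (st_SIEVE st_REL (st_BND st_REL) st_DDIV)
    (st_PAIR st_REL Pool.Agent.Helper53.R8.curve (st_INJ st_LINZ st_VIE))
    Pool.Helper17.RS.st_GEN

end Pool.Helper17.R8
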